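import Pool.Agent.H998_LP.Lip

set_option autoImplicit false

/-!
# MP_f9aece_nt: the normalised moment is Lipschitz at `β = 2`, uniformly in `T`

There are `δ > 0` and `C` such that for every real `x` and all large `T`, simultaneously for all real `β` with
`|β - 2| ≤ δ`,

`|a(T) / exp (¼ β² log log T) - 1| ≤ C (|β - 2| + 1 / log T)`,  `a(T) = ∫_0^1 |ζ(1/2 + ix + iuT)|^β du`.

Unconditional.  The rate in `β` is linear and the constant does not depend on `T`.
-/

open Filter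

theorem Pool.Agent.Results.MP_f9aece_nt.LipschitzAtTwo.result :
    ∃ δ C : ℝ, 0 < δ ∧ 0 < C ∧ ∀ x : ℝ, ∀ᶠ T : ℝ in atTop, ∀ β : ℝ, |β - 2| ≤ δ →
      |(∫ u in (0:ℝ)..1, ‖riemannZeta (1 / 2 + x * Complex.I + (u * T) * Complex.I)‖ ^ β) /
        Real.exp (1 / 4 * β ^ 2 * Real.log (Real.log T)) - 1| ≤ C * (|β - 2| + 1 / Real.log T) := by
  obtain ⟨δ, C, h0, _, hC, h2⟩ := Pool.Agent.H998_LP.lip_shift
  refine ⟨δ, C, h0, hC, fun x => ?_⟩
  filter_upwards [h2 x, Real.tendsto_log_atTop.eventually_ge_atTop 1, eventually_gt_atTop 0] with T h3 hL hT β hβ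
  have h5 := h3 β hβ
  have e1 : Real.exp (1 / 4 * β ^ 2 * Real.log (Real.log T)) = Real.log T ^ (β ^ 2 / 4) := by
    rw [Real.rpow_def_of_pos (by linarith)]; congr 1; ring
  have e2 : ∫ u in (0:ℝ)..1, ‖riemannZeta (1 / 2 + x * Complex.I + (u * T) * Complex.I)‖ ^ β =
      T⁻¹ * ∫ t in x..(T + x), Pool.Agent.TH806.Xz t ^ β := by
    have h5 := intervalIntegral.integral_comp_mul_add (a := (0:ℝ)) (b := 1)
      (fun t => Pool.Agent.TH806.Xz t ^ β) hT.ne' x
    rw [mul_zero, zero_add, mul_one, smul_eq_mul] at h5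
    rw [← h5]
    refine intervalIntegral.integral_congr fun u _ => ?_
    unfold Pool.Agent.TH806.Xz Pool.Agent.H306R2.SM.cl
    congr 3
    push_cast
    ring
  rw [e1, e2]
  set W := ∫ t in x..(T + x), Pool.Agent.TH806.Xz t ^ β
  set P := Real.log T ^ (β ^ 2 / 4) with hP
  have hP0 : 0 < P := Real.rpow_pos_of_pos (by linarith) _
  have hTP0 : 0 < T * P := by positivity
  have e3 : T⁻¹ * W / P - 1 = (W - T * P) / (T * P) := by field_simp
  rw [e3, abs_div, abs_of_pos hTP0, div_le_iff₀ hTP0]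
  exact h5
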