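import Pool.Agent.H998_LP.LogMean

set_option autoImplicit false

/-!
# MP_f9aece_nt: the mean of `log |ζ|` with respect to `|ζ|²`

There is `C` such that for every real `x` and all large `T`

`|∫_0^1 |ζ(1/2 + ix + iuT)|² log |ζ(1/2 + ix + iuT)| du - log T log log T| ≤ C log T`.

Unconditional.  As `a(T) = log T + O(1)` for `β = 2`, the mean of `log |ζ|` under the probability measure proportional to
`|ζ|²` is `log log T + O(1)`; equivalently the logarithmic derivative in `β` of the moment `a(T)` at `β = 2` is that of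
`exp (¼ β² log log T)` up to `O(1)`.
-/

open Filter

theorem Pool.Agent.Results.MP_f9aece_nt.LogMeanAtTwo.result :
    ∃ C : ℝ, 0 < C ∧ ∀ x : ℝ, ∀ᶠ T : ℝ in atTop,
      |(∫ u in (0:ℝ)..1, ‖riemannZeta (1 / 2 + x * Complex.I + (u * T) * Complex.I)‖ ^ 2 *
          Real.log ‖riemannZeta (1 / 2 + x * Complex.I + (u * T) * Complex.I)‖) -
        Real.log T * Real.log (Real.log T)| ≤ C * Real.log T := by
  obtain ⟨C, hC, h2⟩ := Pool.Agent.H998_LP.log_mean
  refine ⟨C, hC, fun x => ?_⟩
  filter_upwards [h2 x, Real.tendsto_log_atTop.eventually_ge_atTop 1, eventually_gt_atTop 0] with T h3 hL hT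
  have e2 : ∫ u in (0:ℝ)..1, ‖riemannZeta (1 / 2 + x * Complex.I + (u * T) * Complex.I)‖ ^ 2 *
        Real.log ‖riemannZeta (1 / 2 + x * Complex.I + (u * T) * Complex.I)‖ =
      T⁻¹ * ∫ t in x..(T + x), Pool.Agent.TH806.Xz t ^ 2 * Real.log (Pool.Agent.TH806.Xz t) := by
    have h5 := intervalIntegral.integral_comp_mul_add (a := (0:ℝ)) (b := 1)
      (fun t => Pool.Agent.TH806.Xz t ^ 2 * Real.log (Pool.Agent.TH806.Xz t)) hT.ne' x
    rw [mul_zero, zero_add, mul_one, smul_eq_mul] at h5
    rw [← h5]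
    refine intervalIntegral.integral_congr fun u _ => ?_
    have e3 : (1 / 2 + (x:ℂ) * Complex.I + ((u:ℂ) * (T:ℂ)) * Complex.I) =
        Pool.Agent.H306R2.SM.cl (T * u + x) := by
      unfold Pool.Agent.H306R2.SM.cl
      push_cast
      ring
    rw [e3]
    rfl
  rw [e2]
  set W := ∫ t in x..(T + x), Pool.Agent.TH806.Xz t ^ 2 * Real.log (Pool.Agent.TH806.Xz t)
  have e3 : T⁻¹ * W - Real.log T * Real.log (Real.log T) =
      T⁻¹ * (W - T * (Real.log T * Real.log (Real.log T))) := by field_simp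
  rw [e3, abs_mul, abs_of_pos (by positivity : 0 < T⁻¹)]
  calc T⁻¹ * |W - T * (Real.log T * Real.log (Real.log T))| ≤ T⁻¹ * (C * (T * Real.log T)) :=
        mul_le_mul_of_nonneg_left h3 (by positivity)
    _ = C * Real.log T := by field_simp
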