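import Pool.Agent.H998_TS.Fin

set_option autoImplicit false

/-!
# MP_f9aece_nt: Selberg's approximation of `log |ζ|` in every mean with respect to the moment measures `|ζ|^β`, `0 < β < 4`

For every real `0 < β < 4`, every natural `k` and every small `η > 0` there is `C` such that for every real `x` and all
large `T`

`∫_0^1 |ζ(1/2 + ix + iuT)|^β |log |ζ(1/2 + ix + iuT)| - Re ∑_{p ≤ T^η} p^(-1/2 - ix - iuT)|^k du ≤ C exp (¼ β² log log T)`.

Unconditional, on the critical line.  The left hand side without the second factor is the moment `a(T)` of the problem, which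
is of the exact order `exp (¼ β² log log T)`; so under the probability measure proportional to `|ζ|^β` all absolute moments
of the difference `log |ζ| - Re ∑_{p ≤ T^η} p^(-1/2 - it)` are bounded.
-/

namespace Pool.Agent.Results.MP_f9aece_nt.TiltedSelberg

open Filter MeasureTheory

/-- `∑_{p ≤ y} cos (t log p) / √p`, the real part of `∑_{p ≤ y} p^(-1/2 - it)` -/
noncomputable def primeSum (y t : ℝ) : ℝ :=
  ∑ p ∈ (Finset.range (⌊y⌋₊ + 1)).filter Nat.Prime, Real.cos (t * Real.log p) / Real.sqrt p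

theorem result (β : ℝ) (hβ0 : 0 < β) (hβ4 : β < 4) (k : ℕ) :
    ∃ η₁ : ℝ, 0 < η₁ ∧ ∀ η : ℝ, 0 < η → η ≤ η₁ → ∃ C : ℝ, 0 < C ∧ ∀ x : ℝ, ∀ᶠ T : ℝ in atTop,
      ∫ u in (0:ℝ)..1, ‖riemannZeta (1 / 2 + x * Complex.I + (u * T) * Complex.I)‖ ^ β *
        |Real.log ‖riemannZeta (1 / 2 + x * Complex.I + (u * T) * Complex.I)‖ -
          primeSum (T ^ η) (x + u * T)| ^ k ≤
        C * Real.exp (1 / 4 * β ^ 2 * Real.log (Real.log T)) := by
  obtain ⟨η₁, hη₁, H⟩ := Pool.Agent.H998_TS.all hβ0 hβ4 k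
  refine ⟨η₁, hη₁, fun η hη hη1 => ?_⟩
  obtain ⟨C, hC, h⟩ := H η hη hη1
  refine ⟨C, hC, fun x => ?_⟩
  filter_upwards [h x, Real.tendsto_log_atTop.eventually_ge_atTop 1, eventually_gt_atTop 0] with T h1 hL hT
  have e1 : Real.exp (1 / 4 * β ^ 2 * Real.log (Real.log T)) = Real.log T ^ (β ^ 2 / 4) := by
    rw [Real.rpow_def_of_pos (by linarith)]; congr 1; ring
  have ey : T ^ η = Pool.Agent.H998_TS.yy η T := by
    unfold Pool.Agent.H998_TS.yy
    rw [Real.rpow_def_of_pos hT, mul_comm]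
  have e2 : ∫ u in (0:ℝ)..1, ‖riemannZeta (1 / 2 + x * Complex.I + (u * T) * Complex.I)‖ ^ β *
        |Real.log ‖riemannZeta (1 / 2 + x * Complex.I + (u * T) * Complex.I)‖ -
          primeSum (T ^ η) (x + u * T)| ^ k =
      T⁻¹ * ∫ t in x..(T + x), Pool.Agent.H998_TS.FF β k (Pool.Agent.H998_TS.yy η T) t := by
    have h5 := intervalIntegral.integral_comp_mul_add (a := (0:ℝ)) (b := 1)
      (fun t => Pool.Agent.H998_TS.FF β k (Pool.Agent.H998_TS.yy η T) t) hT.ne' x
    rw [mul_zero, zero_add, mul_one, smul_eq_mul] at h5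
    rw [← h5]
    refine intervalIntegral.integral_congr fun u _ => ?_
    have e3 : (1 / 2 + (x:ℂ) * Complex.I + ((u:ℂ) * (T:ℂ)) * Complex.I) =
        Pool.Agent.H306R2.SM.cl (T * u + x) := by
      unfold Pool.Agent.H306R2.SM.cl
      push_cast
      ring
    have e4 : primeSum (T ^ η) (x + u * T) =
        Pool.Agent.H998_TS.PS (Pool.Agent.H998_TS.yy η T) (T * u + x) := by
      rw [ey, show x + u * T = T * u + x by ring]
      rfl
    rw [e3, e4]
    rfl
  rw [e1, e2]
  have hT1 : 0 < T⁻¹ := by positivity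
  calc T⁻¹ * ∫ t in x..(T + x), Pool.Agent.H998_TS.FF β k (Pool.Agent.H998_TS.yy η T) t ≤
      T⁻¹ * (C * (T * Real.log T ^ (β ^ 2 / 4))) := mul_le_mul_of_nonneg_left h1 hT1.le
    _ = C * Real.log T ^ (β ^ 2 / 4) := by field_simp

end Pool.Agent.Results.MP_f9aece_nt.TiltedSelberg
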